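import Pool.Agent.H59.Zar.Inst
import Pool.Agent.H77.SN.Defs

/-!
# At a nondegenerate exact return every pair of tangent vectors is a base part
-/

set_option autoImplicit false
set_option linter.unusedSectionVars false

open scoped InnerProductSpace Topology ContDiff
open Set Filter

namespace Pool.Agent.H79.OM

open Pool.Agent.H91.GE hiding G1 G11 Nondeg Br exists_br cF smooth_cF Cfg mem_TSet_of_map
open Pool.Agent.H59.LV Pool.Agent.H59.ND Pool.Agent.H59.Zar Pool.Agent.H77.SN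

variable {E F : Type*} [NormedAddCommGroup E] [InnerProductSpace ℝ E] [FiniteDimensional ℝ E]
  [NormedAddCommGroup F] [InnerProductSpace ℝ F] [FiniteDimensional ℝ F]
  {S : Set E} {A : E × E → E} {K K₂ : NNReal} {Φ : ℝ → E × E → E × E} {n m : ℕ}

/-- Vertical Jacobi fields and the geodesic field cover the tangent space at the end point. -/
theorem vert_cover (h : GFlow F S A K K₂ Φ)
    (hdim : Module.finrank ℝ E = Module.finrank ℝ F + n)
    {w : E × E} (hw : w ∈ UT S) {L : ℝ} (hnd : NDeg Φ S w L) {d : E}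
    (hd : d ∈ ZT S (Φ L w).1) :
    ∃ (c : ℝ) (ξ : E), ξ ∈ ZT S w.1 ∧ ⟪w.2, ξ⟫_ℝ = 0 ∧
      (fderiv ℝ (Φ L) w ((0 : E), ξ)).1 = d + c • (Φ L w).2 := by
  set v := Φ L w with hv
  have hvU : v ∈ UT S := flow_mem_UT h hw L
  have hwn : ⟪w.2, w.2⟫_ℝ = 1 := by rw [real_inner_self_eq_norm_sq, hw.2]; norm_num
  have hvn : ⟪v.2, v.2⟫_ℝ = 1 := by rw [real_inner_self_eq_norm_sq, hvU.2]; norm_num
  let ξ' : E →ₗ[ℝ] E := LinearMap.id - (innerₗ E w.2).smulRight w.2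
  have hξ' : ∀ η, ξ' η = η - ⟪w.2, η⟫_ℝ • w.2 := fun η => rfl
  let B : E →ₗ[ℝ] E := (innerₗ E w.2).smulRight v.2 +
    (LinearMap.fst ℝ E E) ∘ₗ (fderiv ℝ (Φ L) w).toLinearMap ∘ₗ (LinearMap.inr ℝ E E) ∘ₗ ξ'
  have hB : ∀ η, B η = ⟪w.2, η⟫_ℝ • v.2 + (fderiv ℝ (Φ L) w ((0 : E), ξ' η)).1 := fun η => rfl
  have hξm : ∀ η ∈ ZT S w.1, ξ' η ∈ ZT S w.1 ∧ ⟪w.2, ξ' η⟫_ℝ = 0 := by
    intro η hη
    rw [hξ']
    refine ⟨Submodule.sub_mem _ hη (Submodule.smul_mem _ _ (snd_mem_TS h.sub hw)), ?_⟩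
    rw [inner_sub_right, inner_smul_right, hwn]; ring
  have hver : ∀ η ∈ ZT S w.1, ((0 : E), ξ' η) ∈ ZT (UT S) w := fun η hη =>
    (ver_mem_iff h.sub hw).2 (hξm η hη)
  have hfl : ∀ η ∈ ZT S w.1, fderiv ℝ (Φ L) w ((0 : E), ξ' η) ∈ ZT (UT S) v := fun η hη =>
    (flow_ZTU h hw L).2 (hver η hη)
  have hBm : ∀ η ∈ ZT S w.1, B η ∈ ZT S v.1 := by
    intro η hη
    rw [hB]
    exact Submodule.add_mem _ (Submodule.smul_mem _ _ (snd_mem_TS h.sub hvU))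
      (fst_mem_TS hvU (hfl η hη))
  let Bt : ZT S w.1 →ₗ[ℝ] ZT S v.1 := B.restrict hBm
  have hinj : Function.Injective Bt := by
    rw [← LinearMap.ker_eq_bot, LinearMap.ker_eq_bot']
    intro x hx
    have hx0 : B x.1 = 0 := congrArg Subtype.val hx
    rw [hB] at hx0
    have h1 : ⟪v.2, (fderiv ℝ (Φ L) w ((0 : E), ξ' x.1)).1⟫_ℝ = 0 := by
      rw [hv, theta_flow h hw (hver x.1 x.2) L, inner_zero_right]
    have h2 := congrArg (fun z => ⟪v.2, z⟫_ℝ) hx0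
    simp only [inner_add_right, inner_smul_right, hvn, h1, inner_zero_right, mul_one,
      add_zero] at h2
    rw [h2, zero_smul, zero_add] at hx0
    have h3 := hnd _ (hξm x.1 x.2).1 hx0
    rw [hξ', h2, zero_smul, sub_zero] at h3
    exact Subtype.ext h3
  have hxS : w.1 ∈ S := fst_mem_TSet hw.1
  have hyS : v.1 ∈ S := fst_mem_TSet hvU.1
  have hfr : Module.finrank ℝ (ZT S w.1) = Module.finrank ℝ (ZT S v.1) := by
    rw [finrank_TS hdim h.sub hxS, finrank_TS hdim h.sub hyS]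
  have hsurj : Function.Surjective Bt :=
    (LinearMap.injective_iff_surjective_of_finrank_eq_finrank hfr).1 hinj
  obtain ⟨x, hx⟩ := hsurj ⟨d, hd⟩
  have hx1 : B x.1 = d := congrArg Subtype.val hx
  refine ⟨-⟪w.2, x.1⟫_ℝ, ξ' x.1, (hξm x.1 x.2).1, (hξm x.1 x.2).2, ?_⟩
  rw [← hx1, hB, neg_smul]
  abel

theorem exists_base (h : GFlow F S A K K₂ Φ)
    (hdim : Module.finrank ℝ E = Module.finrank ℝ F + n)
    {w : E × E} (hw : w ∈ UT S) {L : ℝ} (hnd : NDeg Φ S w L) {a b : E}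
    (ha : a ∈ ZT S w.1) (hb : b ∈ ZT S (Φ L w).1) :
    ∃ a' b' : E, (((a, a'), (b, b')) : (E × E) × (E × E)) ∈ ZT (RR Φ S) (w, Φ L w) := by
  obtain ⟨a₀, ha₀⟩ := exists_lift h.sub hw ha
  have hvU : Φ L w ∈ UT S := flow_mem_UT h hw L
  have hfa : fderiv ℝ (Φ L) w (a, a₀) ∈ ZT (UT S) (Φ L w) := (flow_ZTU h hw L).2 ha₀
  obtain ⟨c, ξ, hξ, hξ0, he⟩ := vert_cover h hdim hw hnd
    (d := b - (fderiv ℝ (Φ L) w (a, a₀)).1) (Submodule.sub_mem _ hb (fst_mem_TS hvU hfa))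
  have hR := retRel h hdim
  have hver : ((0 : E), ξ) ∈ ZT (UT S) w := (ver_mem_iff h.sub hw).2 ⟨hξ, hξ0⟩
  set α : E × E := (a, a₀ + ξ) with hα
  have hαe : α = (a, a₀) + ((0 : E), ξ) := by rw [hα, Prod.mk_add_mk, add_zero]
  have hαU : α ∈ ZT (UT S) w := by
    rw [hαe]
    exact Submodule.add_mem _ ha₀ hver
  have hX := X_mem_Y h hdim hw
  have hmem := (hR.mem_graph hw L (a := α) (b := α - c • (w.2, A w))).2
    ⟨hαU, by rw [sub_sub_cancel]; exact Submodule.smul_mem _ _ hX⟩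
  refine ⟨a₀ + ξ, (fderiv ℝ (Φ L) w (α - c • (w.2, A w))).2, ?_⟩
  have h1 : (fderiv ℝ (Φ L) w (α - c • (w.2, A w))).1 = b := by
    rw [map_sub, map_smul, flow_X h w L, hαe, map_add, Prod.fst_sub, Prod.fst_add, he]
    show _ + (b - _ + c • (Φ L w).2) - c • (Φ L w).2 = b
    abel
  have h2 : (((a, a₀ + ξ), (b, (fderiv ℝ (Φ L) w (α - c • (w.2, A w))).2)) :
      (E × E) × (E × E)) = (α, fderiv ℝ (Φ L) w (α - c • (w.2, A w))) := by
    rw [← h1]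
  rw [h2]
  exact hmem

end Pool.Agent.H79.OM
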