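import Pool.Agent.H77.SN.Sec3A
import Pool.Agent.H77.SN.Sec3B
import Pool.Agent.H79.OM.Base

/-!
# The identity (*) at exact joint class returns
-/

set_option autoImplicit false
set_option linter.unusedSectionVars false

open scoped InnerProductSpace Topology ContDiff
open Set Filter

namespace Pool.Agent.H79.OM

open Pool.Agent.H91.GE hiding G1 G11 Nondeg Br exists_br cF smooth_cF Cfg mem_TSet_of_map
open Pool.Agent.H59.LV Pool.Agent.H59.ND Pool.Agent.H59.Zar Pool.Agent.H77.SN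

variable {E F : Type*} [NormedAddCommGroup E] [InnerProductSpace ℝ E] [FiniteDimensional ℝ E]
  [NormedAddCommGroup F] [InnerProductSpace ℝ F] [FiniteDimensional ℝ F]
  {S : Set E} {A : E × E → E} {K K₂ : NNReal} {Φ : ℝ → E × E → E × E} {n m : ℕ}

theorem mem_TZ {p : (E × E) × (E × E)} {ξ : E × E} :
    ξ ∈ TZ Φ S p ↔ (((0, ξ.1), (0, ξ.2)) : (E × E) × (E × E)) ∈ ZT (RR Φ S) p := Iff.rfl

theorem TZ_ver (h : GFlow F S A K K₂ Φ) (hdim : Module.finrank ℝ E = Module.finrank ℝ F + n)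
    {w : E × E} (hw : w ∈ UT S) {L : ℝ} {ξ : E × E} (hξ : ξ ∈ TZ Φ S (w, Φ L w)) :
    (ξ.1 ∈ ZT S w.1 ∧ ⟪w.2, ξ.1⟫_ℝ = 0) ∧
      (ξ.2 ∈ ZT S (Φ L w).1 ∧ ⟪(Φ L w).2, ξ.2⟫_ℝ = 0) := by
  have hR := retRel h hdim
  have hvU : Φ L w ∈ UT S := flow_mem_UT h hw L
  have h1 : ((0 : E), ξ.1) ∈ ZT (UT S) w := by
    have h2 := map_mem_ZT_univ (R := RR Φ S) (R' := UT S) (p := (w, Φ L w))
      (Θ := fun q : (E × E) × (E × E) => q.1) contDiff_fst (fun q hq => (hR.sub _ hq).1)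
      (mem_TZ.1 hξ)
    have h3 : fderiv ℝ (fun q : (E × E) × (E × E) => q.1) (w, Φ L w)
        = ContinuousLinearMap.fst ℝ (E × E) (E × E) := fderiv_fst
    rw [h3] at h2
    exact h2
  have h2 : ((0 : E), ξ.2) ∈ ZT (UT S) (Φ L w) := by
    have h2 := map_mem_ZT_univ (R := RR Φ S) (R' := UT S) (p := (w, Φ L w))
      (Θ := fun q : (E × E) × (E × E) => q.2) contDiff_snd (fun q hq => (hR.sub _ hq).2)
      (mem_TZ.1 hξ)
    have h3 : fderiv ℝ (fun q : (E × E) × (E × E) => q.2) (w, Φ L w)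
        = ContinuousLinearMap.snd ℝ (E × E) (E × E) := fderiv_snd
    rw [h3] at h2
    exact h2
  exact ⟨(ver_mem_iff h.sub hw).1 h1, (ver_mem_iff h.sub hvU).1 h2⟩

theorem star_of_JR (h : GFlow F S A K K₂ Φ)
    (hdim : Module.finrank ℝ E = Module.finrank ℝ F + n)
    {w : E × E} {L : ℝ} (hj : JR Φ S w L)
    (hE : ∀ ξ ∈ TZ Φ S (w, Φ L w), (∀ e ∈ TT Φ S w, ⟪ξ.1, e⟫_ℝ = 0) → ξ.1 = 0) :
    Star Φ S (w, Φ L w) := by
  obtain ⟨ζ₁, ζ₂, ν₁, ν₂, hc₁, hc₂, hν⟩ := hj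
  obtain ⟨φ₁, hφ₁⟩ := lemmaA h hdim hc₁
  obtain ⟨φ₂, hφ₂⟩ := lemmaA h hdim hc₂
  have hw : w ∈ UT S := hc₁.mem
  have hvU : Φ L w ∈ UT S := flow_mem_UT h hw L
  set N₁ : ℝ := ν₁ (w, Φ L w) with hN₁
  set N₂ : ℝ := ν₂ (w, Φ L w) with hN₂
  have hN : N₂ - N₁ ≠ 0 := sub_ne_zero.2 (Ne.symm hν)
  refine ⟨(φ₁ - φ₂) / (N₂ - N₁), ?_⟩
  intro ξ hξ a b hab e'' e' hd
  -- both kinds of test pairs
  have ht₁ : TPr ζ₁ N₁ w.1 (Φ L w).1 e'' e' := by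
    rcases hd with hd | hd
    · exact dual1_TPr h hdim hc₁ hd
    · exact dual2_TPr h hdim hc₁ hE hd
  have ht₂ : TPr ζ₂ N₂ w.1 (Φ L w).1 e'' e' := by
    rcases hd with hd | hd
    · exact dual1_TPr h hdim hc₂ hd
    · exact dual2_TPr h hdim hc₂ hE hd
  have hv2 : (Φ L w).2 ∈ TT Φ S (Φ L w) := by
    exact ⟨_, X_mem_Y h hdim hvU, rfl⟩
  have he' : ⟪e', (Φ L w).2⟫_ℝ = 0 := by
    rcases hd with hd | hd
    · obtain ⟨η, hη, rfl⟩ := hd.2.1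
      rw [real_inner_comm]
      exact (TZ_ver h hdim hw hη).2.2
    · exact hd.2.2.2.1 _ hv2
  -- vectors over `0`
  have hzero : ∀ p q : E, (((0, p), (0, q)) : (E × E) × (E × E)) ∈ ZT (RR Φ S) (w, Φ L w) →
      ⟪p, e''⟫_ℝ - ⟪q, e'⟫_ℝ = 0 := by
    intro p q hpq
    have h1 := hφ₁ 0 (Submodule.zero_mem _) (0, p) (0, q) hpq rfl (by simp) e'' e' he' ht₁
    rw [h1, Prod.snd_zero, inner_zero_left, mul_zero]
  obtain ⟨⟨hξ1, -⟩, hξ2, -⟩ := TZ_ver h hdim hw hξ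
  obtain ⟨a₁, b₁, hab₁⟩ := exists_base h hdim hw hc₁.nd hξ1
    (Submodule.neg_mem _ (Submodule.smul_mem _ N₁ hξ2))
  obtain ⟨a₂, b₂, hab₂⟩ := exists_base h hdim hw hc₁.nd hξ1
    (Submodule.neg_mem _ (Submodule.smul_mem _ N₂ hξ2))
  have h1 := hφ₁ ξ hξ _ _ hab₁ rfl rfl e'' e' he' ht₁
  have h2 := hφ₂ ξ hξ _ _ hab₂ rfl rfl e'' e' he' ht₂
  simp only at h1 h2
  -- the difference
  have hd1 := Submodule.sub_mem _ hab₁ hab₂
  have hd2 := Submodule.sub_mem _ (Submodule.smul_mem _ (N₂ - N₁) hab) hd1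
  have hd3 : (N₂ - N₁) • (((0, a), (ξ.2, b)) : (E × E) × (E × E))
      - ((((ξ.1, a₁), (-(N₁ • ξ.2), b₁)) : (E × E) × (E × E))
        - (((ξ.1, a₂), (-(N₂ • ξ.2), b₂)) : (E × E) × (E × E)))
      = (((0, (N₂ - N₁) • a - (a₁ - a₂)), (0, (N₂ - N₁) • b - (b₁ - b₂))) :
        (E × E) × (E × E)) := by
    have e1 : (N₂ - N₁) • ξ.2 - (-(N₁ • ξ.2) - -(N₂ • ξ.2)) = 0 := by
      rw [sub_smul]; abel
    simp only [Prod.smul_mk, Prod.mk_sub_mk, smul_zero, sub_self, e1]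
  rw [hd3] at hd2
  have h3 := hzero _ _ hd2
  rw [inner_sub_left, inner_sub_left, inner_sub_left, inner_sub_left, inner_smul_left,
    inner_smul_left] at h3
  simp only [conj_trivial] at h3
  have h4 : (N₂ - N₁) * (⟪a, e''⟫_ℝ - ⟪b, e'⟫_ℝ) = (φ₁ - φ₂) * ⟪ξ.2, e'⟫_ℝ := by
    linear_combination h3 + h1 - h2
  field_simp
  linear_combination h4

end Pool.Agent.H79.OM
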