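import Pool.Agent.H79.OM.Defs
import Pool.Agent.H20.EK

/-!
# Infinitely many loops: section 6.4
-/

set_option autoImplicit false
set_option linter.unusedSectionVars false

open scoped InnerProductSpace Topology ContDiff
open Set Filter

namespace Pool.Agent.H79.OM

open Pool.Agent.H91.GE Pool.Agent.H59.Zar Pool.Agent.H59.ND

variable {E F : Type*} [NormedAddCommGroup E] [InnerProductSpace ℝ E] [FiniteDimensional ℝ E]
  [NormedAddCommGroup F] [InnerProductSpace ℝ F] [FiniteDimensional ℝ F]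
  {S : Set E} {A : E × E → E} {K K₂ : NNReal} {Φ : ℝ → E × E → E × E}
  {c : ℕ} {R : Set ((E × E) × (E × E))}

theorem hasDerivAt_norm_line {v η : E} (hv : v ≠ 0) :
    HasDerivAt (fun ε : ℝ => ‖v + ε • η‖) (⟪v, η⟫_ℝ / ‖v‖) 0 := by
  have h1 : HasDerivAt (fun ε : ℝ => v + ε • η) η 0 := by
    simpa using ((hasDerivAt_id (0 : ℝ)).smul_const η).const_add v
  have h2 : HasDerivAt (fun ε : ℝ => ‖v + ε • η‖ ^ 2) (2 * ⟪v + (0 : ℝ) • η, η⟫_ℝ) 0 := h1.norm_sq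
  rw [zero_smul, add_zero] at h2
  have h3 : ‖v + (0 : ℝ) • η‖ ^ 2 ≠ 0 := by
    rw [zero_smul, add_zero]
    exact pow_ne_zero 2 (norm_ne_zero_iff.2 hv)
  have h4 := h2.sqrt h3
  rw [zero_smul, add_zero, Real.sqrt_sq (norm_nonneg v)] at h4
  have h5 : (fun ε : ℝ => √(‖v + ε • η‖ ^ 2)) = fun ε : ℝ => ‖v + ε • η‖ :=
    funext fun ε => Real.sqrt_sq (norm_nonneg _)
  rw [h5] at h4
  have h6 : 2 * ⟪v, η⟫_ℝ / (2 * ‖v‖) = ⟪v, η⟫_ℝ / ‖v‖ := by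
    have : ‖v‖ ≠ 0 := norm_ne_zero_iff.2 hv
    field_simp
  rw [h6] at h4
  exact h4

/-- The polar coordinates along a line. -/
theorem polar_line {v ξ : E} {α : ℝ} (hv : v ≠ 0) (hξ : ⟪v, ξ⟫_ℝ = 0) :
    HasDerivAt (fun ε : ℝ => ‖v + ε • (α • ‖v‖⁻¹ • v + ‖v‖ • ξ)‖) α 0 ∧
    HasDerivAt (fun ε : ℝ => ‖v + ε • (α • ‖v‖⁻¹ • v + ‖v‖ • ξ)‖⁻¹ •
      (v + ε • (α • ‖v‖⁻¹ • v + ‖v‖ • ξ))) ξ 0 := by
  have hn : ‖v‖ ≠ 0 := norm_ne_zero_iff.2 hv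
  set η : E := α • ‖v‖⁻¹ • v + ‖v‖ • ξ with hη
  have hvη : ⟪v, η⟫_ℝ = α * ‖v‖ := by
    rw [hη, inner_add_right, inner_smul_right, inner_smul_right, inner_smul_right, hξ,
      real_inner_self_eq_norm_sq]
    field_simp
    ring
  have h1 := hasDerivAt_norm_line (η := η) hv
  rw [hvη, mul_div_assoc, div_self hn, mul_one] at h1
  refine ⟨h1, ?_⟩
  have h2 : HasDerivAt (fun ε : ℝ => v + ε • η) η 0 := by
    simpa using ((hasDerivAt_id (0 : ℝ)).smul_const η).const_add v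
  have h3 : ‖v + (0 : ℝ) • η‖ ≠ 0 := by rw [zero_smul, add_zero]; exact hn
  have h4 : HasDerivAt (fun ε : ℝ => ‖v + ε • η‖⁻¹ • (v + ε • η))
      (‖v + (0 : ℝ) • η‖⁻¹ • η + (-α / ‖v + (0 : ℝ) • η‖ ^ 2) • (v + (0 : ℝ) • η)) 0 :=
    (h1.fun_inv h3).fun_smul h2
  simp only [zero_smul, add_zero] at h4
  have h5 : ‖v‖⁻¹ • η + (-α / ‖v‖ ^ 2) • v = ξ := by
    rw [hη, smul_add, smul_smul, smul_smul, smul_smul, inv_mul_cancel₀ hn, one_smul]
    have h6 : ‖v‖⁻¹ * α * ‖v‖⁻¹ = α / ‖v‖ ^ 2 := by field_simp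
    rw [h6, neg_div, neg_smul]
    abel
  rw [← h5]
  exact h4

theorem loops {n : ℕ} (g : GFlow F S A K K₂ Φ) (h : RetRel Φ (UT S) c R) (hsec : Secure S)
    (hdim : Module.finrank ℝ E = Module.finrank ℝ F + n)
    {w₀ : E × E} (hw₀ : w₀ ∈ UT S)
    {P : Type*} [NormedAddCommGroup P] [NormedSpace ℝ P] [FiniteDimensional ℝ P]
    (hP : Module.finrank ℝ P < n) (pr : E →L[ℝ] P)
    {C₁ : ℝ} (hrig : ∀ᶠ q in 𝓝[R] (w₀, w₀), ‖q.2 - q.1‖ ≤ C₁ * ‖pr (q.2.1 - q.1.1)‖)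
    {C₂ : ℝ} (hcov : ∀ᶠ q in 𝓝[R] (w₀, w₀), ∀ t : ℝ, 1 ≤ t → q.2 = Φ t q.1 → ∀ p : P,
      ∃ (α : ℝ) (ξ : E), ξ ∈ ZT S q.1.1 ∧ ⟪q.1.2, ξ⟫_ℝ = 0 ∧
        pr (α • q.2.2 + (fderiv ℝ (Φ t) q.1 ((0 : E), ξ)).1) = p ∧
        |α| ≤ C₂ * ‖p‖ ∧ ‖ξ‖ ≤ C₂ * ‖p‖) : False := by
  -- the radius
  obtain ⟨ρ, hρ, hball⟩ := Metric.eventually_nhds_iff.1 (eventually_nhdsWithin_iff.1 (hrig.and hcov))
  have hρ' : ∀ w v : E × E, (w, v) ∈ R → ‖w - w₀‖ < ρ → ‖v - w₀‖ < ρ →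
      ‖v - w‖ ≤ C₁ * ‖pr (v.1 - w.1)‖ ∧ ∀ t : ℝ, 1 ≤ t → v = Φ t w → ∀ p : P,
      ∃ (α : ℝ) (ξ : E), ξ ∈ ZT S w.1 ∧ ⟪w.2, ξ⟫_ℝ = 0 ∧
        pr (α • v.2 + (fderiv ℝ (Φ t) w ((0 : E), ξ)).1) = p ∧
        |α| ≤ C₂ * ‖p‖ ∧ ‖ξ‖ ≤ C₂ * ‖p‖ := by
    intro w v hR h1 h2
    refine hball (y := (w, v)) ?_ hR
    rw [Prod.dist_eq, dist_eq_norm, dist_eq_norm]
    exact max_lt h1 h2
  set r : ℝ := min (ρ / 16) (1 / 4) with hr
  have hr0 : 0 < r := lt_min (by positivity) (by norm_num)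
  have hr1 : r ≤ ρ / 16 := min_le_left _ _
  have hr2 : r ≤ 1 / 4 := min_le_right _ _
  set M₁ : ℝ := |C₁| + 1 with hM₁
  have hM₁0 : 0 < M₁ := by positivity
  set M₂ : ℝ := |C₂| + 1 with hM₂
  have hM₂0 : 0 < M₂ := by positivity
  set cc : ℝ := 1 / (3 * M₂) with hcc
  have hcc0 : 0 < cc := by positivity
  set κ : ℝ := cc / 2 with hκ
  have hκ0 : 0 < κ := by positivity
  set δ : ℝ := min (4 * r) (min (κ * r / (2 * (‖pr‖ + 1))) (r / (M₁ * (‖pr‖ + 1)))) with hδ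
  have hδ0 : 0 < δ := by
    refine lt_min (by positivity) (lt_min (by positivity) (by positivity))
  have hδ1 : δ ≤ 4 * r := min_le_left _ _
  have hδ2 : δ ≤ κ * r / (2 * (‖pr‖ + 1)) := (min_le_right _ _).trans (min_le_left _ _)
  have hδ3 : δ ≤ r / (M₁ * (‖pr‖ + 1)) := (min_le_right _ _).trans (min_le_right _ _)
  -- the exact return
  obtain ⟨w₁, hw₁, T, hT, hO⟩ := h.dense (w₀, w₀) (h.diag _ hw₀) 2
    (Metric.ball (w₀, w₀) (min (ρ / 2) (δ / 2))) (Metric.ball_mem_nhds _ (lt_min (by positivity)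
      (by positivity)))
  rw [Metric.mem_ball, Prod.dist_eq, dist_eq_norm, dist_eq_norm, max_lt_iff] at hO
  obtain ⟨hO1, hO2⟩ := hO
  have hw1ρ : ‖w₁ - w₀‖ < ρ / 2 := hO1.trans_le (min_le_left _ _)
  have hret : ‖Φ T w₁ - w₁‖ < δ := by
    have e1 : Φ T w₁ - w₁ = (Φ T w₁ - w₀) - (w₁ - w₀) := by abel
    rw [e1]
    refine (norm_sub_le _ _).trans_lt ?_
    have e2 := hO1.trans_le (min_le_right _ _)
    have e3 := hO2.trans_le (min_le_right _ _)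
    simp only at e2 e3
    linarith
  have hx₁ : w₁.1 ∈ S := fst_mem_TSet hw₁.1
  have hu₁ : w₁.2 ∈ ZT S w₁.1 := snd_mem_TS g.sub hw₁
  have hu1 : ‖w₁.2‖ = 1 := hw₁.2
  -- the parametrisation
  let V := ZT S w₁.1
  let vv : V → E := fun q => w₁.2 + (q : E)
  let W : V → E × E := fun q => (w₁.1, ‖vv q‖⁻¹ • vv q)
  let θ : V → ℝ := fun q => T + ‖vv q‖ - 1
  let Ψ : V → E × E := fun q => Φ (θ q) (W q)
  let G : V → P := fun q => pr ((Ψ q).1 - w₁.1)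
  let D : V → ℝ := fun q => (1 / 4) * ‖Ψ q - w₁‖
  have hvn : ∀ q : V, |‖vv q‖ - 1| ≤ ‖q‖ := by
    intro q
    have e1 := abs_norm_sub_norm_le (vv q) w₁.2
    rw [hu1] at e1
    have e2 : vv q - w₁.2 = q := by simp [vv]
    rw [e2] at e1
    exact e1
  have hvpos : ∀ q : V, ‖q‖ ≤ r → 3 / 4 ≤ ‖vv q‖ ∧ ‖vv q‖ ≤ 5 / 4 := by
    intro q hq
    have e1 := hvn q
    rw [abs_le] at e1
    constructor <;> linarith
  have hvne : ∀ q : V, ‖q‖ ≤ r → vv q ≠ 0 := by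
    intro q hq
    refine norm_pos_iff.1 ?_
    linarith [(hvpos q hq).1]
  have hWUT : ∀ q : V, ‖q‖ ≤ r → W q ∈ UT S := by
    intro q hq
    have e1 : ‖vv q‖⁻¹ • vv q ∈ ZT S w₁.1 :=
      Submodule.smul_mem _ _ (Submodule.add_mem _ hu₁ q.2)
    refine ⟨(mem_TS g.sub hx₁).1 e1, ?_⟩
    show ‖‖vv q‖⁻¹ • vv q‖ = 1
    rw [norm_smul, norm_inv, norm_norm, inv_mul_cancel₀ (norm_ne_zero_iff.2 (hvne q hq))]
  have hW1 : ∀ q : V, ‖q‖ ≤ r → ‖W q - w₁‖ ≤ 2 * ‖q‖ := by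
    intro q hq
    have e1 : W q - w₁ = ((0 : E), ‖vv q‖⁻¹ • vv q - w₁.2) := by
      show ((w₁.1, ‖vv q‖⁻¹ • vv q) : E × E) - w₁ = _
      ext <;> simp
    rw [e1, Prod.norm_def, norm_zero, max_eq_right (norm_nonneg _)]
    have e2 : ‖vv q‖⁻¹ • vv q - w₁.2 = (‖vv q‖⁻¹ - 1) • vv q + (q : E) := by
      rw [sub_smul, one_smul]
      simp only [vv]
      abel
    rw [e2]
    refine (norm_add_le _ _).trans ?_
    rw [norm_smul, Real.norm_eq_abs]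
    have e3 : |‖vv q‖⁻¹ - 1| * ‖vv q‖ = |‖vv q‖ - 1| := by
      have hp : 0 < ‖vv q‖ := by linarith [(hvpos q hq).1]
      rw [← abs_of_pos hp, ← abs_mul, abs_of_pos hp, sub_mul, inv_mul_cancel₀ hp.ne', one_mul,
        abs_sub_comm]
    rw [e3]
    have e4 : ‖(q : E)‖ = ‖q‖ := rfl
    rw [e4]
    linarith [hvn q]
  have hθ1 : ∀ q : V, ‖q‖ ≤ r → 1 ≤ θ q := by
    intro q hq
    show 1 ≤ T + ‖vv q‖ - 1
    linarith [(hvpos q hq).1]
  have hmemR : ∀ q : V, ‖q‖ ≤ r → (W q, Ψ q) ∈ R := fun q hq => h.mem_flow (hWUT q hq) _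
  have hnear1 : ∀ q : V, ‖q‖ ≤ r → ‖W q - w₀‖ < ρ := by
    intro q hq
    have e1 : W q - w₀ = (W q - w₁) + (w₁ - w₀) := by abel
    rw [e1]
    refine (norm_add_le _ _).trans_lt ?_
    linarith [hW1 q hq]
  have hnear2 : ∀ q : V, D q ≤ r → ‖Ψ q - w₀‖ < ρ := by
    intro q hq
    have e1 : Ψ q - w₀ = (Ψ q - w₁) + (w₁ - w₀) := by abel
    rw [e1]
    refine (norm_add_le _ _).trans_lt ?_
    have e2 : (1 / 4) * ‖Ψ q - w₁‖ ≤ r := hq
    linarith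
  have hrigq : ∀ q : V, ‖q‖ ≤ r → D q ≤ r → ‖Ψ q - W q‖ ≤ M₁ * ‖G q‖ := by
    intro q h1 h2
    have e1 := (hρ' _ _ (hmemR q h1) (hnear1 q h1) (hnear2 q h2)).1
    refine e1.trans ?_
    show C₁ * ‖pr ((Ψ q).1 - w₁.1)‖ ≤ M₁ * ‖pr ((Ψ q).1 - w₁.1)‖
    refine mul_le_mul_of_nonneg_right ?_ (norm_nonneg _)
    rw [hM₁]
    linarith [le_abs_self C₁]
  -- smoothness
  have hvs : ContDiff ℝ ∞ vv := contDiff_const.add (ZT S w₁.1).subtypeL.contDiff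
  have hΨs : ∀ q : V, vv q ≠ 0 → ContDiffAt ℝ ∞ Ψ q := by
    intro q hq
    have e1 : ContDiffAt ℝ ∞ (fun q => ‖vv q‖) q := hvs.contDiffAt.norm ℝ hq
    have e2 : ContDiffAt ℝ ∞ W q :=
      contDiffAt_const.prodMk ((e1.inv (norm_ne_zero_iff.2 hq)).smul hvs.contDiffAt)
    have e3 : ContDiffAt ℝ ∞ θ q := (contDiffAt_const.add e1).sub contDiffAt_const
    exact (h.smooth.contDiffAt (x := (θ q, W q))).comp q (e3.prodMk e2)
  have hGs : ∀ q : V, vv q ≠ 0 → ContDiffAt ℝ ∞ G q := by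
    intro q hq
    exact pr.contDiff.contDiffAt.comp q ((contDiff_fst.contDiffAt.comp q (hΨs q hq)).sub
      contDiffAt_const)
  -- the value at `0`
  have hvv0 : vv 0 = w₁.2 := by simp [vv]
  have hΨ0 : Ψ 0 = Φ T w₁ := by
    show Φ (T + ‖vv 0‖ - 1) (w₁.1, ‖vv 0‖⁻¹ • vv 0) = Φ T w₁
    rw [hvv0, hu1, inv_one, one_smul, add_sub_cancel_right]
  have hG0 : ‖G 0‖ ≤ ‖pr‖ * δ := by
    show ‖pr ((Ψ 0).1 - w₁.1)‖ ≤ _
    rw [hΨ0]
    refine (pr.le_opNorm _).trans (mul_le_mul_of_nonneg_left ?_ (norm_nonneg _))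
    exact (norm_fst_le (Φ T w₁ - w₁)).trans hret.le
  have hinf := Pool.Agent.H20.EK.infinite_of_surj G (fun q => fderiv ℝ G q) D
    (r := r) (c := cc) (κ := κ) (C := M₁ / 4)
    (by rw [finrank_TS hdim g.sub hx₁]; exact hP) hκ0 (by rw [hκ]; linarith) (by positivity)
    (by
      intro q hq
      have hq' : ‖q‖ ≤ r := by simpa using hq
      have e1 := (hΨs q (hvne q hq')).continuousAt
      exact (((e1.sub continuousAt_const).norm).const_mul (1 / 4)).continuousWithinAt)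
    (fun q hq _ => (hGs q (hvne q hq)).hasStrictFDerivAt (by simp))
    (by
      intro q hq hq2 p
      have hq' := hq.le
      obtain ⟨α, ξ, hξ, hξ0, hp, hα, hξn⟩ := (hρ' _ _ (hmemR q hq') (hnear1 q hq')
        (hnear2 q hq2.le)).2 (θ q) (hθ1 q hq') rfl p
      have hv0 := hvne q hq'
      have hn : ‖vv q‖ ≠ 0 := norm_ne_zero_iff.2 hv0
      have hξ0' : ⟪vv q, ξ⟫_ℝ = 0 := by
        have e1 : ⟪‖vv q‖⁻¹ • vv q, ξ⟫_ℝ = 0 := hξ0
        rw [inner_smul_left] at e1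
        rcases mul_eq_zero.1 e1 with e2 | e2
        · exact absurd e2 (by simpa using hn)
        · exact e2
      obtain ⟨hd1, hd2⟩ := polar_line (α := α) hv0 hξ0'
      have hηmem : α • ‖vv q‖⁻¹ • vv q + ‖vv q‖ • ξ ∈ ZT S w₁.1 :=
        Submodule.add_mem _ (Submodule.smul_mem _ _ (Submodule.smul_mem _ _
          (Submodule.add_mem _ hu₁ q.2))) (Submodule.smul_mem _ _ hξ)
      refine ⟨⟨_, hηmem⟩, ?_, ?_⟩
      · set η : V := ⟨α • ‖vv q‖⁻¹ • vv q + ‖vv q‖ • ξ, hηmem⟩ with hη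
        -- the derivative along the line
        have hline : HasDerivAt (fun ε : ℝ => q + ε • η) η 0 := by
          simpa using ((hasDerivAt_id (0 : ℝ)).smul_const η).const_add q
        have hG1 : HasFDerivAt G (fderiv ℝ G q) (q + (0 : ℝ) • η) := by
          rw [zero_smul, add_zero]
          exact ((hGs q hv0).differentiableAt (by simp)).hasFDerivAt
        have hd3 : HasDerivAt (fun ε : ℝ => G (q + ε • η)) (fderiv ℝ G q η) 0 := by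
          have e0 := HasFDerivAt.comp_hasDerivAt (l := G) (f := fun ε : ℝ => q + ε • η) (0 : ℝ)
            hG1 hline
          exact e0
        have hvl : ∀ ε : ℝ, vv (q + ε • η) = vv q + ε • (α • ‖vv q‖⁻¹ • vv q + ‖vv q‖ • ξ) := by
          intro ε
          show w₁.2 + ((q : E) + ε • (η : E)) = _
          rw [← add_assoc]
        have hd4 : HasDerivAt (fun ε : ℝ => (θ (q + ε • η), W (q + ε • η))) (α, ((0 : E), ξ)) 0 := by
          have e1 : (fun ε : ℝ => θ (q + ε • η)) = fun ε : ℝ =>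
              T + ‖vv q + ε • (α • ‖vv q‖⁻¹ • vv q + ‖vv q‖ • ξ)‖ - 1 := by
            funext ε
            show T + ‖vv (q + ε • η)‖ - 1 = _
            rw [hvl]
          have e2 : HasDerivAt (fun ε : ℝ => θ (q + ε • η)) α 0 := by
            rw [e1]
            exact (hd1.const_add T).sub_const 1
          have e3 : (fun ε : ℝ => W (q + ε • η)) = fun ε : ℝ =>
              (w₁.1, ‖vv q + ε • (α • ‖vv q‖⁻¹ • vv q + ‖vv q‖ • ξ)‖⁻¹ •
                (vv q + ε • (α • ‖vv q‖⁻¹ • vv q + ‖vv q‖ • ξ))) := by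
            funext ε
            show (w₁.1, ‖vv (q + ε • η)‖⁻¹ • vv (q + ε • η)) = _
            rw [hvl]
          have e4 : HasDerivAt (fun ε : ℝ => W (q + ε • η)) ((0 : E), ξ) 0 := by
            rw [e3]
            exact (hasDerivAt_const (0 : ℝ) w₁.1).prodMk hd2
          exact e2.prodMk e4
        have hd5 : HasDerivAt (fun ε : ℝ => Ψ (q + ε • η))
            (α • XF A (Ψ q) + fderiv ℝ (Φ (θ q)) (W q) ((0 : E), ξ)) 0 := by
          have e1 := g.flow.hasFDerivAt g.vf (θ (q + (0 : ℝ) • η)) (W (q + (0 : ℝ) • η))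
          have e2 := e1.comp_hasDerivAt (0 : ℝ) hd4
          rw [zero_smul, add_zero] at e2
          exact e2
        have hd6 : HasDerivAt (fun ε : ℝ => G (q + ε • η))
            (pr (α • (Ψ q).2 + (fderiv ℝ (Φ (θ q)) (W q) ((0 : E), ξ)).1)) 0 := by
          have e1 : HasDerivAt (fun ε : ℝ => (Ψ (q + ε • η)).1)
              (α • (Ψ q).2 + (fderiv ℝ (Φ (θ q)) (W q) ((0 : E), ξ)).1) 0 :=
            (ContinuousLinearMap.fst ℝ E E).hasFDerivAt.comp_hasDerivAt (0 : ℝ) hd5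
          exact pr.hasFDerivAt.comp_hasDerivAt (0 : ℝ) (e1.sub_const w₁.1)
        show fderiv ℝ G q η = p
        rw [hd3.unique hd6]
        exact hp
      · show cc * ‖α • ‖vv q‖⁻¹ • vv q + ‖vv q‖ • ξ‖ ≤ ‖p‖
        have e1 : ‖α • ‖vv q‖⁻¹ • vv q + ‖vv q‖ • ξ‖ ≤ |α| + ‖vv q‖ * ‖ξ‖ := by
          refine (norm_add_le _ _).trans ?_
          rw [norm_smul, norm_smul, norm_smul, norm_inv, norm_norm, inv_mul_cancel₀ hn, mul_one,
            Real.norm_eq_abs]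
        have e2 : |α| ≤ M₂ * ‖p‖ := hα.trans (mul_le_mul_of_nonneg_right (by
          rw [hM₂]; linarith [le_abs_self C₂]) (norm_nonneg _))
        have e3 : ‖ξ‖ ≤ M₂ * ‖p‖ := hξn.trans (mul_le_mul_of_nonneg_right (by
          rw [hM₂]; linarith [le_abs_self C₂]) (norm_nonneg _))
        have e4 : ‖vv q‖ * ‖ξ‖ ≤ 2 * (M₂ * ‖p‖) :=
          mul_le_mul (by linarith [(hvpos q hq').2]) e3 (norm_nonneg _) (by norm_num)
        have e5 : ‖α • ‖vv q‖⁻¹ • vv q + ‖vv q‖ • ξ‖ ≤ 3 * M₂ * ‖p‖ := by linarith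
        calc cc * ‖α • ‖vv q‖⁻¹ • vv q + ‖vv q‖ • ξ‖ ≤ cc * (3 * M₂ * ‖p‖) :=
              mul_le_mul_of_nonneg_left e5 hcc0.le
          _ = ‖p‖ := by rw [hcc]; field_simp)
    (by
      intro q hq hq2
      have e1 := hrigq q hq hq2
      have e2 := hW1 q hq
      show (1 / 4) * ‖Ψ q - w₁‖ ≤ r / 2 + M₁ / 4 * ‖G q‖
      have e3 : ‖Ψ q - w₁‖ ≤ ‖Ψ q - W q‖ + ‖W q - w₁‖ := norm_sub_le_norm_sub_add_norm_sub _ _ _
      linarith)
    (by
      show (1 / 4) * ‖Ψ 0 - w₁‖ ≤ r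
      rw [hΨ0]
      linarith)
    (by
      refine hG0.trans_lt ?_
      have e1 : ‖pr‖ * δ ≤ ‖pr‖ * (κ * r / (2 * (‖pr‖ + 1))) :=
        mul_le_mul_of_nonneg_left hδ2 (norm_nonneg _)
      have e2 : ‖pr‖ * (κ * r / (2 * (‖pr‖ + 1))) < κ * r := by
        have hpr := norm_nonneg pr
        have hκr : 0 < κ * r := by positivity
        rw [← mul_div_assoc, div_lt_iff₀ (by positivity)]
        nlinarith
      linarith)
    (by
      have e0 : M₁ / 4 * ‖G 0‖ ≤ M₁ / 4 * (‖pr‖ * δ) := mul_le_mul_of_nonneg_left hG0 (by positivity)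
      have e1 : ‖pr‖ * δ ≤ ‖pr‖ * (r / (M₁ * (‖pr‖ + 1))) :=
        mul_le_mul_of_nonneg_left hδ3 (norm_nonneg _)
      have e2 : M₁ / 4 * (‖pr‖ * (r / (M₁ * (‖pr‖ + 1)))) < r / 2 := by
        have hpr := norm_nonneg pr
        have e3 : M₁ / 4 * (‖pr‖ * (r / (M₁ * (‖pr‖ + 1)))) = ‖pr‖ * r / (4 * (‖pr‖ + 1)) := by
          field_simp
        rw [e3, div_lt_iff₀ (by positivity)]
        nlinarith
      have e4 := mul_le_mul_of_nonneg_left e1 (show (0 : ℝ) ≤ M₁ / 4 by positivity)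
      linarith)
  -- contradiction to finiteness
  refine hinf ?_
  refine Set.Finite.of_injOn (f := fun q : V => ((W q).2, θ q)) (fun q hq => ?_)
    (fun q hq q' hq' he => ?_) (finite_flow g hsec (x := w₁.1) (y := w₁.1) (T + 1))
  · obtain ⟨h1, h2, h3⟩ := hq
    have e1 := hrigq q h1.le h2.le
    rw [h3, norm_zero, mul_zero] at e1
    have e2 : Ψ q = W q := sub_eq_zero.1 (norm_le_zero_iff.1 e1)
    have e3 := hθ1 q h1.le
    refine ⟨hWUT q h1.le, ?_, by show θ q ≠ 0; linarith, ?_⟩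
    · show |θ q| ≤ T + 1
      rw [abs_of_nonneg (by linarith)]
      show T + ‖vv q‖ - 1 ≤ T + 1
      linarith [(hvpos q h1.le).2]
    · show (Φ (θ q) (W q)).1 = w₁.1
      have e4 : (Φ (θ q) (W q)).1 = (W q).1 := congrArg Prod.fst e2
      exact e4
  · simp only [Prod.mk.injEq] at he
    obtain ⟨he1, he2⟩ := he
    have e1 : ‖vv q‖ = ‖vv q'‖ := by
      have : T + ‖vv q‖ - 1 = T + ‖vv q'‖ - 1 := he2
      linarith
    have e2 : ‖vv q‖⁻¹ • vv q = ‖vv q'‖⁻¹ • vv q' := he1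
    have hn : ‖vv q'‖ ≠ 0 := norm_ne_zero_iff.2 (hvne q' hq'.1.le)
    rw [e1] at e2
    have e3 : vv q = vv q' := by
      have := congrArg (fun z => ‖vv q'‖ • z) e2
      simpa [smul_smul, mul_inv_cancel₀ hn] using this
    exact Subtype.ext (add_left_cancel e3)

end Pool.Agent.H79.OM
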