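import Pool.Agent.H79.OM.Defs
import Pool.Agent.H59.Zar.RelGood

/-!
# Uniform facts near a good transverse point
-/

set_option autoImplicit false
set_option linter.unusedSectionVars false

open scoped InnerProductSpace Topology ContDiff
open Set Filter

namespace Pool.Agent.H79.OM

open Pool.Agent.H91.GE Pool.Agent.H59.Zar Pool.Agent.H59.ND

section gen

variable {G W M P : Type*} [NormedAddCommGroup G] [NormedSpace ℝ G] [FiniteDimensional ℝ G]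
  [NormedAddCommGroup W] [NormedSpace ℝ W] [NormedAddCommGroup P] [NormedSpace ℝ P]
  [FiniteDimensional ℝ P] [TopologicalSpace M]

/-- Injectivity on the fixed spaces of a continuous family of operators is uniform. -/
theorem near_inj {Q : M → G →L[ℝ] G} {x₀ : M} (hQ : ContinuousAt Q x₀) (L : G →L[ℝ] W)
    (hL : ∀ b, Q x₀ b = b → L b = 0 → b = 0) :
    ∃ C : ℝ, 0 < C ∧ ∀ᶠ x in 𝓝 x₀, ∀ b, Q x b = b → ‖b‖ ≤ C * ‖L b‖ := by
  let T : G →L[ℝ] W × G := L.prod (ContinuousLinearMap.id ℝ G - Q x₀)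
  have hT : LinearMap.ker T.toLinearMap = ⊥ := by
    rw [LinearMap.ker_eq_bot']
    intro b hb
    have hb1 : T b = 0 := hb
    have hb2 : L b = 0 := congrArg Prod.fst hb1
    have hb3 : b - Q x₀ b = 0 := congrArg Prod.snd hb1
    exact hL b (sub_eq_zero.1 hb3).symm hb2
  obtain ⟨K, hK0, hK⟩ := LinearMap.exists_antilipschitzWith T.toLinearMap hT
  have hKpos : (0 : ℝ) < K := by exact_mod_cast hK0
  have hbound : ∀ b : G, ‖b‖ ≤ K * (‖L b‖ + ‖b - Q x₀ b‖) := by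
    intro b
    have h1 := hK.le_mul_dist b 0
    rw [dist_zero_right] at h1
    have h2 : dist (T.toLinearMap b) (T.toLinearMap 0) = max ‖L b‖ ‖b - Q x₀ b‖ := by
      rw [map_zero, dist_zero_right]
      rfl
    rw [h2] at h1
    refine h1.trans (mul_le_mul_of_nonneg_left ?_ hKpos.le)
    exact max_le (le_add_of_nonneg_right (norm_nonneg _)) (le_add_of_nonneg_left (norm_nonneg _))
  have hε : (0 : ℝ) < 1 / (2 * K) := by positivity
  have hev : ∀ᶠ x in 𝓝 x₀, ‖Q x - Q x₀‖ < 1 / (2 * K) := by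
    have h1 := Metric.tendsto_nhds.1 hQ _ hε
    filter_upwards [h1] with x hx
    rwa [dist_eq_norm] at hx
  refine ⟨2 * K, by positivity, ?_⟩
  filter_upwards [hev] with x hx b hb
  have h1 := hbound b
  have h2 : ‖b - Q x₀ b‖ ≤ 1 / (2 * K) * ‖b‖ := by
    have h3 : b - Q x₀ b = (Q x - Q x₀) b := by
      rw [sub_apply, hb]
    rw [h3]
    exact (ContinuousLinearMap.le_opNorm _ _).trans (mul_le_mul_of_nonneg_right hx.le (norm_nonneg _))
  have h3 : (K : ℝ) * ‖b - Q x₀ b‖ ≤ ‖b‖ / 2 := by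
    have h4 := mul_le_mul_of_nonneg_left h2 hKpos.le
    have h5 : (K : ℝ) * (1 / (2 * K) * ‖b‖) = ‖b‖ / 2 := by field_simp
    rwa [h5] at h4
  have h4 : (K : ℝ) * (‖L b‖ + ‖b - Q x₀ b‖) = K * ‖L b‖ + K * ‖b - Q x₀ b‖ := by ring
  rw [h4] at h1
  linarith

omit [FiniteDimensional ℝ G] in
theorem near_close {Q : M → G →L[ℝ] G} {x₀ : M} (hQ : ContinuousAt Q x₀) {ε : ℝ} (hε : 0 < ε) :
    ∀ᶠ x in 𝓝 x₀, ∀ a, ‖Q x a - Q x₀ a‖ ≤ ε * ‖a‖ := by
  have h1 := Metric.tendsto_nhds.1 hQ ε hε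
  filter_upwards [h1] with x hx a
  rw [dist_eq_norm] at hx
  have h2 : Q x a - Q x₀ a = (Q x - Q x₀) a := rfl
  rw [h2]
  exact (ContinuousLinearMap.le_opNorm _ _).trans (mul_le_mul_of_nonneg_right hx.le (norm_nonneg _))

/-- An operator near the identity is onto. -/
theorem onto_near_id {M : P →L[ℝ] P} (hM : ‖M - ContinuousLinearMap.id ℝ P‖ ≤ 1 / 2) (p : P) :
    ∃ q, M q = p ∧ ‖q‖ ≤ 2 * ‖p‖ := by
  have hb : ∀ q, ‖q‖ ≤ 2 * ‖M q‖ := by
    intro q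
    have h1 : ‖M q - q‖ ≤ 1 / 2 * ‖q‖ := by
      have h2 := (M - ContinuousLinearMap.id ℝ P).le_opNorm q
      have h3 : (M - ContinuousLinearMap.id ℝ P) q = M q - q := rfl
      rw [h3] at h2
      exact h2.trans (mul_le_mul_of_nonneg_right hM (norm_nonneg _))
    have h4 : ‖q‖ ≤ ‖M q‖ + ‖M q - q‖ := by
      have h5 : q = M q - (M q - q) := by abel
      calc ‖q‖ = ‖M q - (M q - q)‖ := by rw [← h5]
        _ ≤ _ := norm_sub_le _ _
    linarith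
  have hinj : Function.Injective M.toLinearMap := by
    rw [← LinearMap.ker_eq_bot, LinearMap.ker_eq_bot']
    intro q hq
    have h1 : M q = 0 := hq
    have h2 := hb q
    rw [h1, norm_zero, mul_zero] at h2
    exact norm_le_zero_iff.1 h2
  obtain ⟨q, hq⟩ := LinearMap.injective_iff_surjective.1 hinj p
  have hq' : M q = p := hq
  exact ⟨q, hq', by rw [← hq']; exact hb q⟩

/-- Surjectivity on the images of a continuous family of operators is uniform. -/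
theorem near_surj {Q : M → G →L[ℝ] G} {x₀ : M} (hQ : ContinuousAt Q x₀) (L : G →L[ℝ] P)
    (hL : ∀ p, ∃ b, L (Q x₀ b) = p) :
    ∃ C : ℝ, 0 < C ∧ ∀ᶠ x in 𝓝 x₀, ∀ p, ∃ b, L (Q x b) = p ∧ ‖Q x b‖ ≤ C * ‖p‖ := by
  obtain ⟨s, hs⟩ := ((L.comp (Q x₀)).toLinearMap).exists_rightInverse_of_surjective
    (LinearMap.range_eq_top.2 fun p => hL p)
  let s' : P →L[ℝ] G := LinearMap.toContinuousLinearMap s
  have hs' : (L.comp (Q x₀)).comp s' = ContinuousLinearMap.id ℝ P := by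
    ext p
    exact congrArg (fun l : P →ₗ[ℝ] P => l p) hs
  have hc : ContinuousAt (fun x => (L.comp (Q x)).comp s') x₀ := by
    have h1 : ContinuousAt (fun x => L.comp (Q x)) x₀ := continuousAt_const.clm_comp hQ
    exact h1.clm_comp continuousAt_const
  have hev : ∀ᶠ x in 𝓝 x₀, ‖(L.comp (Q x)).comp s' - ContinuousLinearMap.id ℝ P‖ ≤ 1 / 2 := by
    have h1 := Metric.tendsto_nhds.1 hc (1 / 2) (by norm_num)
    filter_upwards [h1] with x hx
    rw [dist_eq_norm, hs'] at hx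
    exact hx.le
  have hev2 : ∀ᶠ x in 𝓝 x₀, ‖Q x‖ < ‖Q x₀‖ + 1 :=
    hQ.norm.tendsto.eventually_lt_const (by linarith)
  refine ⟨(‖Q x₀‖ + 1) * (‖s'‖ * 2) + 1, by positivity, ?_⟩
  filter_upwards [hev, hev2] with x hx hx2 p
  obtain ⟨q, hq, hq2⟩ := onto_near_id hx p
  refine ⟨s' q, hq, ?_⟩
  calc ‖Q x (s' q)‖ ≤ ‖Q x‖ * (‖s'‖ * ‖q‖) :=
        ((Q x).le_opNorm _).trans (mul_le_mul_of_nonneg_left (s'.le_opNorm _) (norm_nonneg _))
    _ ≤ (‖Q x₀‖ + 1) * (‖s'‖ * (2 * ‖p‖)) := by gcongr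
    _ ≤ ((‖Q x₀‖ + 1) * (‖s'‖ * 2) + 1) * ‖p‖ := by nlinarith [norm_nonneg p]

end gen

variable {E : Type*} [NormedAddCommGroup E] [InnerProductSpace ℝ E] [FiniteDimensional ℝ E]
  {S : Set E} {Φ : ℝ → E × E → E × E} {c : ℕ} {R : Set ((E × E) × (E × E))}

theorem near_trv (h : RetRel Φ (UT S) c R) {w₀ : E × E} (hw₀ : w₀ ∈ GoodPt (UT S) R)
    (htrv : Trv R w₀) : ∃ C : ℝ, 0 < C ∧ ∀ᶠ w in 𝓝[UT S] w₀, ∀ b ∈ Y R w, ‖b‖ ≤ C * ‖b.1‖ := by
  obtain ⟨Q, ⟨O, hO, hQ⟩, hev⟩ := h.exists_projY hw₀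
  have hQc : ContinuousAt Q w₀ := (hQ.contDiffAt hO).continuousAt
  have h0 := hev.self_of_nhdsWithin hw₀.1
  obtain ⟨C, hC, h1⟩ := near_inj hQc (ContinuousLinearMap.fst ℝ E E)
    (fun b hb hb0 => htrv b (by rw [← hb]; exact h0.1 b) hb0)
  refine ⟨C, hC, ?_⟩
  filter_upwards [hev, nhdsWithin_le_nhds h1] with w hw hw1 b hb
  exact hw1 b (hw.2 b hb)

/-- The space of base components. -/
noncomputable def TB (R : Set ((E × E) × (E × E))) (w : E × E) : Submodule ℝ E :=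
  (Y R w).map (LinearMap.fst ℝ E E)

theorem near_proj (h : RetRel Φ (UT S) c R) {w₀ : E × E} (hw₀ : w₀ ∈ GoodPt (UT S) R) :
    ∃ C : ℝ, 0 < C ∧ ∀ᶠ w in 𝓝[UT S] w₀, ∀ p : TB R w₀,
      ∃ b ∈ Y R w, (TB R w₀).orthogonalProjectionOnto b.1 = p ∧ ‖b‖ ≤ C * ‖p‖ := by
  obtain ⟨Q, ⟨O, hO, hQ⟩, hev⟩ := h.exists_projY hw₀
  have hQc : ContinuousAt Q w₀ := (hQ.contDiffAt hO).continuousAt
  have h0 := hev.self_of_nhdsWithin hw₀.1
  obtain ⟨C, hC, h1⟩ := near_surj hQc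
    ((TB R w₀).orthogonalProjectionOnto.comp (ContinuousLinearMap.fst ℝ E E)) (fun p => by
      obtain ⟨b, hb, hb1⟩ := p.2
      refine ⟨b, ?_⟩
      rw [h0.2 b hb]
      show (TB R w₀).orthogonalProjectionOnto b.1 = p
      have h2 : b.1 = (p : E) := hb1
      rw [h2]
      exact Submodule.orthogonalProjectionOnto_mem_subspace_eq_self p)
  refine ⟨C, hC, ?_⟩
  filter_upwards [hev, nhdsWithin_le_nhds h1] with w hw hw1 p
  obtain ⟨b, hb, hb2⟩ := hw1 p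
  exact ⟨Q w b, hw.1 b, hb, hb2⟩

theorem near_ZT (h : RetRel Φ (UT S) c R) {w₀ : E × E} (hw₀ : w₀ ∈ GoodPt (UT S) R)
    {ε : ℝ} (hε : 0 < ε) : ∀ᶠ q in 𝓝[R] (w₀, w₀), ∀ a ∈ ZT (UT S) q.1,
      ∃ a' b' : E × E, (a', b') ∈ ZT R q ∧ ‖a' - a‖ ≤ ε * ‖a‖ ∧ ‖b' - a‖ ≤ ε * ‖a‖ := by
  obtain ⟨P, ⟨O, hO, hP⟩, hev⟩ := h.exists_projR hw₀ 0
  rw [h.zero] at hO hev
  have hPc : ContinuousAt P (w₀, w₀) := (hP.contDiffAt hO).continuousAt
  have h1 := near_close hPc (half_pos hε)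
  have hcont : Tendsto (fun q : (E × E) × (E × E) => (q.1, q.1)) (𝓝 (w₀, w₀))
      (𝓝 (w₀, w₀)) := by
    have : Continuous (fun q : (E × E) × (E × E) => (q.1, q.1)) := by fun_prop
    exact this.tendsto (w₀, w₀)
  have h2 := hcont.eventually h1
  have h3 : ∀ᶠ q : (E × E) × (E × E) in 𝓝[R] (w₀, w₀), ∀ a ∈ ZT R (q.1, q.1), P (q.1, q.1) a = a := by
    have h4 : Tendsto (fun q : (E × E) × (E × E) => (q.1, q.1)) (𝓝[R] (w₀, w₀))
        (𝓝[R] (w₀, w₀)) := by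
      refine tendsto_nhdsWithin_iff.2 ⟨hcont.mono_left nhdsWithin_le_nhds, ?_⟩
      filter_upwards [self_mem_nhdsWithin] with q hq
      exact h.diag _ (h.sub _ hq).1
    filter_upwards [h4.eventually hev] with q hq
    exact hq.2
  filter_upwards [hev, nhdsWithin_le_nhds h1, nhdsWithin_le_nhds h2, h3, self_mem_nhdsWithin]
    with q hq hq1 hq2 hq3 hqR a ha
  have ha2 : (a, a) ∈ ZT R (q.1, q.1) :=
    (h.mem_diag (h.sub _ hqR).1).2 ⟨ha, by rw [sub_self]; exact Submodule.zero_mem _⟩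
  have h5 := hq3 _ ha2
  have h6 : ‖P q (a, a) - (a, a)‖ ≤ ε * ‖a‖ := by
    have e1 := hq1 (a, a)
    have e2 := hq2 (a, a)
    rw [h5] at e2
    have h9 : ‖(a, a)‖ = ‖a‖ := by rw [Prod.norm_def, max_self]
    rw [h9] at e1 e2
    have h7 : P q (a, a) - (a, a) = (P q (a, a) - P (w₀, w₀) (a, a))
        - ((a, a) - P (w₀, w₀) (a, a)) := by abel
    rw [h7]
    refine (norm_sub_le _ _).trans ?_
    linarith
  refine ⟨(P q (a, a)).1, (P q (a, a)).2, hq.1 _, ?_, ?_⟩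
  · exact (norm_fst_le (P q (a, a) - (a, a))).trans h6
  · exact (norm_snd_le (P q (a, a) - (a, a))).trans h6

end Pool.Agent.H79.OM
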