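import Pool.Agent.H59.Zar.Inst

/-!
# Section 6 of `db5e86_proof`: definitions
-/

set_option autoImplicit false

open scoped InnerProductSpace Topology ContDiff
open Set Filter

namespace Pool.Agent.H79.OM

open Pool.Agent.H91.GE Pool.Agent.H59.Zar Pool.Agent.H59.ND

variable {E : Type*} [NormedAddCommGroup E] [InnerProductSpace ℝ E] [FiniteDimensional ℝ E]

/-- `Y` meets the vertical space only in `0`. -/
def Trv (R : Set ((E × E) × (E × E))) (w : E × E) : Prop :=
  ∀ b ∈ Y R w, b.1 = 0 → b = 0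

/-- Theorem 1: the shape operator of `Y` is a multiple of the identity. -/
def Conf (S : Set E) (R : Set ((E × E) × (E × E))) (w : E × E) : Prop :=
  ∃ lam : ℝ, ∀ a ∈ Y R w, ⟪w.2, a.1⟫_ℝ = 0 → ∀ e ∈ ZT S w.1, ⟪a.2, e⟫_ℝ = lam * ⟪a.1, e⟫_ℝ

end Pool.Agent.H79.OM
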