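import Pool.Agent.H59.Zar.RelGood

/-!
# `Y` is involutive, from the structure of `ZT R` near the diagonal
-/

set_option autoImplicit false
set_option linter.unusedSectionVars false

open scoped Topology ContDiff
open Set Filter

namespace Pool.Agent.H79.OM

open Pool.Agent.H59.Zar

variable {G : Type*} [NormedAddCommGroup G] [NormedSpace ℝ G] [FiniteDimensional ℝ G]
variable {Φ : ℝ → G → G} {U : Set G} {c : ℕ} {R : Set (G × G)}

theorem involutive_of_near (h : RetRel Φ U c R) {w₀ : G} (hw : w₀ ∈ U)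
    (hnear : ∀ᶠ q in 𝓝[R] (w₀, w₀), ∀ b, ((0 : G), b) ∈ ZT R q ↔ b ∈ Y R q.2)
    {A B : G → G} {O : Set G} (hO : O ∈ 𝓝 w₀) (hA : ContDiffOn ℝ ∞ A O) (hB : ContDiffOn ℝ ∞ B O)
    (hA' : ∀ w ∈ U, w ∈ O → A w ∈ Y R w) (hB' : ∀ w ∈ U, w ∈ O → B w ∈ Y R w) :
    fderiv ℝ B w₀ (A w₀) - fderiv ℝ A w₀ (B w₀) ∈ Y R w₀ := by
  obtain ⟨N, hN, hNR⟩ := mem_nhdsWithin_iff_exists_mem_nhds_inter.1 hnear
  have hsnd : {q : G × G | q.2 ∈ O} ∈ 𝓝 (w₀, w₀) :=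
    (continuous_snd.tendsto (w₀, w₀)).eventually hO
  have hUn : N ∩ {q : G × G | q.2 ∈ O} ∈ 𝓝 (w₀, w₀) := inter_mem hN hsnd
  have key : ∀ {C : G → G}, ContDiffOn ℝ ∞ C O → (∀ w ∈ U, w ∈ O → C w ∈ Y R w) →
      ContDiffOn ℝ ∞ (fun q : G × G => ((0 : G), C q.2)) (N ∩ {q : G × G | q.2 ∈ O}) ∧
      (∀ q ∈ R, q ∈ N ∩ {q : G × G | q.2 ∈ O} → ((0 : G), C q.2) ∈ ZT R q) ∧
      ∀ v : G × G, fderiv ℝ (fun q : G × G => ((0 : G), C q.2)) (w₀, w₀) v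
        = ((0 : G), fderiv ℝ C w₀ v.2) := by
    intro C hC hC'
    refine ⟨?_, ?_, ?_⟩
    · refine contDiffOn_const.prodMk ?_
      exact hC.comp contDiff_snd.contDiffOn fun q hq => hq.2
    · intro q hqR hq
      exact (hNR ⟨hq.1, hqR⟩ _).2 (hC' _ (h.sub _ hqR).2 hq.2)
    · intro v
      have h1 : HasFDerivAt C (fderiv ℝ C w₀) w₀ :=
        ((hC.contDiffAt hO).differentiableAt (by simp)).hasFDerivAt
      have h2 : HasFDerivAt (fun q : G × G => C q.2)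
          ((fderiv ℝ C w₀).comp (ContinuousLinearMap.snd ℝ G G)) (w₀, w₀) :=
        HasFDerivAt.comp (w₀, w₀) (g := C) h1 hasFDerivAt_snd
      have h3 := (hasFDerivAt_const (0 : G) (w₀, w₀)).prodMk h2
      rw [h3.fderiv]
      simp
  obtain ⟨a1, a2, a3⟩ := key hA hA'
  obtain ⟨b1, b2, b3⟩ := key hB hB'
  have h1 := bracket_mem hUn a1 b1 a2 b2 (h.diag _ hw)
  rw [a3, b3] at h1
  rw [mem_Y]
  have h2 : (((0 : G), fderiv ℝ B w₀ (A w₀)) - ((0 : G), fderiv ℝ A w₀ (B w₀)))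
      = ((0 : G), fderiv ℝ B w₀ (A w₀) - fderiv ℝ A w₀ (B w₀)) := by
    rw [Prod.mk_sub_mk, sub_zero]
  rw [← h2]
  exact h1

end Pool.Agent.H79.OM
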