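import Pool.Agent.H79.OM.Defs
import Pool.Agent.H20.EK

/-!
# Section 6 of `db5e86_proof`: skeleton
-/

set_option autoImplicit false

open scoped InnerProductSpace Topology ContDiff
open Set Filter

namespace Pool.Agent.H79.OM

open Pool.Agent.H91.GE Pool.Agent.H59.Zar Pool.Agent.H59.ND Pool.Agent.H59.LV

variable {E F : Type*} [NormedAddCommGroup E] [InnerProductSpace ℝ E] [FiniteDimensional ℝ E]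
  [NormedAddCommGroup F] [InnerProductSpace ℝ F] [FiniteDimensional ℝ F]
  {S : Set E} {A : E × E → E} {K K₂ : NNReal} {Φ : ℝ → E × E → E × E}
  {c : ℕ} {R : Set ((E × E) × (E × E))}

/-! ### A. Geometry of the tangent spaces of the unit tangent bundle -/

theorem tangent_of_ZT (g : GFlow F S A K K₂ Φ) {w a : E × E} (hw : w ∈ UT S)
    (ha : a ∈ ZT (UT S) w) : (w.1, a.1) ∈ TSet S ∧ ⟪a.2, w.2⟫_ℝ = 0 := by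
  sorry

theorem vert_mem_ZT (g : GFlow F S A K K₂ Φ) {w : E × E} (hw : w ∈ UT S) {ξ : E}
    (hξ : (w.1, ξ) ∈ TSet S) (h0 : ⟪ξ, w.2⟫_ℝ = 0) : ((0 : E), ξ) ∈ ZT (UT S) w := by
  sorry

theorem tan2 (g : GFlow F S A K K₂ Φ) {w a : E × E} (hw : w ∈ UT S)
    (ha : a ∈ ZT (UT S) w) :
    (w.1, a.2 - (1 / 2 : ℝ) • fderiv ℝ A w ((0 : E), a.1)) ∈ TSet S := by
  sorry

theorem dA_normal (g : GFlow F S A K K₂ Φ) {w : E × E} (hw : w ∈ UT S) {ξ e : E}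
    (hξ : (w.1, ξ) ∈ TSet S) (he : (w.1, e) ∈ TSet S) :
    ⟪fderiv ℝ A w ((0 : E), ξ), e⟫_ℝ = 0 := by
  sorry

/-! ### B. Jacobi fields in `Y` -/

theorem gauss (g : GFlow F S A K K₂ Φ) (h : RetRel Φ (UT S) c R) {w a : E × E} (hw : w ∈ UT S)
    (ha : a ∈ ZT (UT S) w) (t : ℝ) :
    ⟪(fderiv ℝ (Φ t) w a).1, (Φ t w).2⟫_ℝ = ⟪a.1, w.2⟫_ℝ := by
  sorry

theorem conf_eq (g : GFlow F S A K K₂ Φ) (h : RetRel Φ (UT S) c R) {w : E × E} (hw : w ∈ UT S)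
    (hc : Conf S R w) : ∃ lam : ℝ, ∀ a ∈ Y R w, ⟪a.1, w.2⟫_ℝ = 0 →
      a.2 = lam • a.1 + (1 / 2 : ℝ) • fderiv ℝ A w ((0 : E), a.1) := by
  sorry

/-- (6.2): the Jacobi field which vanishes at `0`. -/
theorem jac (g : GFlow F S A K K₂ Φ) (h : RetRel Φ (UT S) c R) {w a : E × E} (hw : w ∈ UT S)
    (htrv : ∀ t, Trv R (Φ t w)) (hconf : ∀ t, Conf S R (Φ t w)) (ha : a ∈ Y R w)
    (h0 : ⟪a.1, w.2⟫_ℝ = 0) (hne : a.1 ≠ 0) (t : ℝ) :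
    fderiv ℝ (Φ t) w ((0 : E), a.1)
      = (∫ s in (0 : ℝ)..t, ‖a.1‖ ^ 2 / ‖(fderiv ℝ (Φ s) w a).1‖ ^ 2) • fderiv ℝ (Φ t) w a
        + ((0 : E), (‖a.1‖ ^ 2 / ‖(fderiv ℝ (Φ t) w a).1‖ ^ 2) • (fderiv ℝ (Φ t) w a).1) := by
  sorry

/-! ### C. Near a good transverse point -/

theorem near_trv (h : RetRel Φ (UT S) c R) {w₀ : E × E} (hw₀ : w₀ ∈ GoodPt (UT S) R)
    (htrv : Trv R w₀) : ∃ C : ℝ, 0 < C ∧ ∀ᶠ w in 𝓝[UT S] w₀, ∀ b ∈ Y R w, ‖b‖ ≤ C * ‖b.1‖ := by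
  sorry

/-- The space of base components. -/
noncomputable def TB (R : Set ((E × E) × (E × E))) (w : E × E) : Submodule ℝ E :=
  (Y R w).map (LinearMap.fst ℝ E E)

theorem near_proj (h : RetRel Φ (UT S) c R) {w₀ : E × E} (hw₀ : w₀ ∈ GoodPt (UT S) R)
    (htrv : Trv R w₀) : ∃ C : ℝ, 0 < C ∧ ∀ᶠ w in 𝓝[UT S] w₀, ∀ p : TB R w₀,
      ∃ b ∈ Y R w, (TB R w₀).orthogonalProjectionOnto b.1 = p ∧ ‖b.1‖ ≤ C * ‖p‖ := by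
  sorry

theorem near_ZT (h : RetRel Φ (UT S) c R) {w₀ : E × E} (hw₀ : w₀ ∈ GoodPt (UT S) R)
    {ε : ℝ} (hε : 0 < ε) : ∀ᶠ q in 𝓝[R] (w₀, w₀), ∀ a ∈ ZT (UT S) q.1,
      ∃ a' b' : E × E, (a', b') ∈ ZT R q ∧ ‖a' - a‖ ≤ ε * ‖a‖ ∧ ‖b' - a‖ ≤ ε * ‖a‖ := by
  sorry

/-- `Y` is isotropic. -/
theorem isotropic (g : GFlow F S A K K₂ Φ) (h : RetRel Φ (UT S) c R) {w : E × E}
    (hw : w ∈ UT S) (hc : Conf S R w) {a b : E × E} (ha : a ∈ Y R w) (hb : b ∈ Y R w) :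
    om a b = 0 := by
  sorry

/-- (6.1), weak form. -/
theorem weak61 (g : GFlow F S A K K₂ Φ) (h : RetRel Φ (UT S) c R)
    (hom : ∀ w ∈ UT S, ∀ a ∈ ZT (UT S) w, ∀ b ∈ ZT (UT S) w, ∀ t : ℝ,
      om (fderiv ℝ (Φ t) w a) (fderiv ℝ (Φ t) w b) = om a b)
    {O : Set (E × E)} (hO : O ⊆ GoodPt (UT S) R) (hO1 : ∀ w ∈ O, ∀ᶠ w' in 𝓝[UT S] w, w' ∈ O)
    (hO2 : ∀ w ∈ O, ∀ t, Φ t w ∈ O) (hO3 : ∀ w ∈ O, Trv R w ∧ Conf S R w)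
    {w₀ : E × E} (hw₀ : w₀ ∈ O) :
    ∃ C : ℝ, 0 < C ∧ ∀ᶠ q in 𝓝[R] (w₀, w₀), ∀ t : ℝ, q.2 = Φ t q.1 → ∀ a ∈ Y R q.1,
      ⟪a.1, q.1.2⟫_ℝ = 0 → ‖a.1‖ ≤ C * ‖(fderiv ℝ (Φ t) q.1 a).1‖ := by
  sorry

/-- Covering of the base components. -/
theorem cover (g : GFlow F S A K K₂ Φ) (h : RetRel Φ (UT S) c R)
    (hom : ∀ w ∈ UT S, ∀ a ∈ ZT (UT S) w, ∀ b ∈ ZT (UT S) w, ∀ t : ℝ,
      om (fderiv ℝ (Φ t) w a) (fderiv ℝ (Φ t) w b) = om a b)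
    {O : Set (E × E)} (hO : O ⊆ GoodPt (UT S) R) (hO1 : ∀ w ∈ O, ∀ᶠ w' in 𝓝[UT S] w, w' ∈ O)
    (hO2 : ∀ w ∈ O, ∀ t, Φ t w ∈ O) (hO3 : ∀ w ∈ O, Trv R w ∧ Conf S R w)
    {w₀ : E × E} (hw₀ : w₀ ∈ O) :
    ∃ C : ℝ, 0 < C ∧ ∀ᶠ q in 𝓝[R] (w₀, w₀), ∀ t : ℝ, 1 ≤ t → q.2 = Φ t q.1 → ∀ b ∈ Y R q.2,
      ∃ (α : ℝ) (ξ : E), (q.1.1, ξ) ∈ TSet S ∧ ⟪ξ, q.1.2⟫_ℝ = 0 ∧
        b.1 = α • q.2.2 + (fderiv ℝ (Φ t) q.1 ((0 : E), ξ)).1 ∧ |α| ≤ ‖b.1‖ ∧ ‖ξ‖ ≤ C * ‖b.1‖ := by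
  sorry

/-! ### D. Infinitely many loops -/

theorem loops {n : ℕ} (g : GFlow F S A K K₂ Φ) (h : RetRel Φ (UT S) c R) (hsec : Secure S)
    (hdim : Module.finrank ℝ E = Module.finrank ℝ F + n)
    {w₀ : E × E} (hw₀ : w₀ ∈ UT S)
    {P : Type*} [NormedAddCommGroup P] [NormedSpace ℝ P] [FiniteDimensional ℝ P]
    (hP : Module.finrank ℝ P < n) (pr : E →L[ℝ] P)
    {C₁ : ℝ} (hrig : ∀ᶠ q in 𝓝[R] (w₀, w₀), ‖q.2 - q.1‖ ≤ C₁ * ‖pr (q.2.1 - q.1.1)‖)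
    {C₂ : ℝ} (hcov : ∀ᶠ q in 𝓝[R] (w₀, w₀), ∀ t : ℝ, 1 ≤ t → q.2 = Φ t q.1 → ∀ p : P,
      ∃ (α : ℝ) (ξ : E), (q.1.1, ξ) ∈ TSet S ∧ ⟪ξ, q.1.2⟫_ℝ = 0 ∧
        pr (α • q.2.2 + (fderiv ℝ (Φ t) q.1 ((0 : E), ξ)).1) = p ∧
        |α| ≤ C₂ * ‖p‖ ∧ ‖ξ‖ ≤ C₂ * ‖p‖) : False := by
  sorry

/-! ### The theorem -/

theorem finrank_ge {n : ℕ} (g : GFlow F S A K K₂ Φ) (h : RetRel Φ (UT S) c R) (hsec : Secure S)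
    (hdim : Module.finrank ℝ E = Module.finrank ℝ F + n)
    (hom : ∀ w ∈ UT S, ∀ a ∈ ZT (UT S) w, ∀ b ∈ ZT (UT S) w, ∀ t : ℝ,
      om (fderiv ℝ (Φ t) w a) (fderiv ℝ (Φ t) w b) = om a b)
    {O : Set (E × E)} (hO : O ⊆ GoodPt (UT S) R) (hO1 : ∀ w ∈ O, ∀ᶠ w' in 𝓝[UT S] w, w' ∈ O)
    (hO2 : ∀ w ∈ O, ∀ t, Φ t w ∈ O) (hO3 : ∀ w ∈ O, Trv R w ∧ Conf S R w)
    {w₀ : E × E} (hw₀ : w₀ ∈ O) : n ≤ Module.finrank ℝ (Y R w₀) := by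
  sorry

end Pool.Agent.H79.OM
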